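import Pool.Agent.H4.Aut.Rigid

namespace Pool.Agent.H4.Aut

open Matrix
open Pool.Agent.H7.UB

lemma FF_comp {k : ℕ} {Q : Type} (X : Q → Fin k → ℝ) (π : Equiv.Perm Q) (T : Set Q) :
    T ∈ FF (fun q => X (π q)) ↔ π '' T ∈ FF X := by
  constructor
  · rintro ⟨h, h1, rfl⟩
    refine ⟨h, fun q => ?_, ?_⟩
    · have := h1 (π.symm q)
      simpa using this
    · ext q
      constructor
      · rintro ⟨p, hp, rfl⟩
        exact hp
      · intro hq
        refine ⟨π.symm q, ?_, by simp⟩
        simpa using hq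
  · rintro ⟨h, h1, h2⟩
    refine ⟨h, fun q => h1 (π q), ?_⟩
    ext q
    constructor
    · intro hq
      have : π q ∈ π '' T := ⟨q, hq, rfl⟩
      rw [h2] at this
      exact this
    · intro hq
      have : π q ∈ π '' T := by
        rw [h2]
        exact hq
      obtain ⟨p, hp, hpq⟩ := this
      rwa [← π.injective hpq]

lemma isAut_iff {k : ℕ} {Q : Type} (X : Q → Fin k → ℝ) (π : Equiv.Perm Q) :
    FF (fun q => X (π q)) = FF X ↔ IsAut X π := by
  constructor
  · intro h T
    rw [← FF_comp, h]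
  · intro h
    ext T
    rw [FF_comp]
    exact (h T).symm

/-- **Few automorphisms**: a configuration all of whose members are vertices has at most `v ^ k`
automorphisms. -/
theorem aut_card_le {k v : ℕ} (hv : 1 ≤ v) (X : Fin v → Fin k → ℝ) (h0 : ∅ ∈ FF X)
    (hX : ∀ q, {q} ∈ FF X) :
    {π : Equiv.Perm (Fin v) | FF (fun q => X (π q)) = FF X}.ncard ≤ v ^ k := by
  classical
  obtain ⟨S, hS1, hS2⟩ := exists_base (X := X) _ ∅ rfl h0
  have hinj : Set.InjOn (fun (π : Equiv.Perm (Fin v)) (p : S) => π p.1)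
      {π : Equiv.Perm (Fin v) | FF (fun q => X (π q)) = FF X} := by
    intro π hπ σ hσ h
    have hπ' := (isAut_iff X π).1 hπ
    have hσ' := (isAut_iff X σ).1 hσ
    have hcomp : IsAut X (σ⁻¹ * π) := by
      intro T
      rw [hπ' T, hσ' ((σ⁻¹ * π) '' T)]
      have : σ '' ((σ⁻¹ * π) '' T) = π '' T := by
        rw [← Set.image_comp]
        apply Set.image_congr
        intro x _
        simp
      rw [this]
    have hfix : ∀ p ∈ S, (σ⁻¹ * π) p = p := by
      intro p hp
      have h1 : π p = σ p := congrFun h ⟨p, hp⟩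
      rw [Equiv.Perm.mul_apply, h1]; simp
    ext1 q
    have h1 := hS2 (σ⁻¹ * π) hcomp (by simp) hfix {q} (hX q) (Set.empty_subset _)
    have h2 : (σ⁻¹ * π) q = q := by
      rw [Set.image_singleton] at h1
      exact Set.singleton_injective h1
    rw [Equiv.Perm.mul_apply, Equiv.Perm.inv_eq_iff_eq] at h2
    exact h2
  have h1 := Set.ncard_le_ncard_of_injOn (t := (Set.univ : Set (S → Fin v)))
    (fun (π : Equiv.Perm (Fin v)) (p : S) => π p.1) (fun _ _ => Set.mem_univ _) hinj
    (Set.toFinite _)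
  refine h1.trans ?_
  rw [Set.ncard_univ, Nat.card_eq_fintype_card, Fintype.card_fun, Fintype.card_fin,
    Fintype.card_coe]
  exact Nat.pow_le_pow_right hv (by omega)

/-- (AUT) -/
theorem aut_le (d : ℕ) (_hd : 1 ≤ d) : ∃ C : ℕ, ∀ (v : ℕ) (X : Fin v → Fin (d + 1) → ℝ), NF X →
    (∀ q, {q} ∈ FF X) →
    {π : Equiv.Perm (Fin v) | FF (fun q => X (π q)) = FF X}.ncard ≤ C * v ^ C := by
  refine ⟨d + 1, fun v X hN hX => ?_⟩
  obtain ⟨q0, -⟩ := hN.basis 0
  have hv : 1 ≤ v := by
    have := q0.2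
    omega
  have h0 : ∅ ∈ FF X := by
    refine ⟨fun _ => 1, fun q => ?_, ?_⟩
    · have h1 : (fun _ => (1 : ℝ)) ⬝ᵥ X q = ∑ i, X q i := by simp [dotProduct]
      rw [h1, hN.sum q]
      norm_num
    · ext q
      have h1 : (fun _ => (1 : ℝ)) ⬝ᵥ X q = ∑ i, X q i := by simp [dotProduct]
      simp only [Set.mem_empty_iff_false, Set.mem_setOf_eq, false_iff]
      rw [h1, hN.sum q]
      norm_num
  have h1 := aut_card_le hv X h0 hX
  refine h1.trans ?_
  exact Nat.le_mul_of_pos_left _ (by omega)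

end Pool.Agent.H4.Aut
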