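import Pool.Agent.H7.UB.CDefs

/-! Few automorphisms: an automorphism of a polytope fixing a flag is the identity. Everything is
in terms of the family `FF X` of zero sets of nonnegative functionals. -/

namespace Pool.Agent.H4.Aut

open Matrix
open Pool.Agent.H7.UB

variable {k : ℕ} {Q : Type} {X : Q → Fin k → ℝ}

/-- exposing functional -/
def Ex (X : Q → Fin k → ℝ) (T : Set Q) (h : Fin k → ℝ) : Prop :=
  (∀ q, 0 ≤ h ⬝ᵥ X q) ∧ ∀ q, q ∈ T ↔ h ⬝ᵥ X q = 0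

lemma FF_iff {T : Set Q} : T ∈ FF X ↔ ∃ h, Ex X T h := by
  constructor
  · rintro ⟨h, h1, rfl⟩
    exact ⟨h, h1, fun q => Iff.rfl⟩
  · rintro ⟨h, h1, h2⟩
    exact ⟨h, h1, Set.ext h2⟩

lemma Ex.pos {T : Set Q} {h : Fin k → ℝ} (hE : Ex X T h) {q : Q} (hq : q ∉ T) :
    0 < h ⬝ᵥ X q :=
  lt_of_le_of_ne (hE.1 q) fun h0 => hq ((hE.2 q).2 h0.symm)

lemma FF_univ : Set.univ ∈ FF X := FF_iff.2 ⟨0, fun q => by simp, fun q => by simp⟩

lemma FF_inter {T T' : Set Q} (hT : T ∈ FF X) (hT' : T' ∈ FF X) : T ∩ T' ∈ FF X := by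
  obtain ⟨h, h1⟩ := FF_iff.1 hT
  obtain ⟨h', h1'⟩ := FF_iff.1 hT'
  refine FF_iff.2 ⟨h + h', fun q => ?_, fun q => ?_⟩
  · rw [add_dotProduct]
    exact add_nonneg (h1.1 q) (h1'.1 q)
  · rw [add_dotProduct, Set.mem_inter_iff, h1.2, h1'.2]
    have a := h1.1 q
    have b := h1'.1 q
    constructor
    · rintro ⟨h3, h4⟩
      rw [h3, h4, add_zero]
    · intro h3
      constructor <;> linarith

/-- faces of faces are faces -/
lemma FF_sub [Finite Q] {T : Set Q} (hT : T ∈ FF X) {g : Fin k → ℝ}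
    (hg : ∀ q ∈ T, 0 ≤ g ⬝ᵥ X q) : {q | q ∈ T ∧ g ⬝ᵥ X q = 0} ∈ FF X := by
  obtain ⟨b, hb⟩ := FF_iff.1 hT
  have h1 : ∀ᶠ μ : ℝ in Filter.atTop, ∀ q, q ∉ T → 0 < g ⬝ᵥ X q + μ * (b ⬝ᵥ X q) := by
    rw [Filter.eventually_all]
    intro q
    by_cases hq : q ∈ T
    · exact Filter.Eventually.of_forall fun μ h => absurd hq h
    · have hp := hb.pos hq
      filter_upwards [Filter.eventually_gt_atTop (-(g ⬝ᵥ X q) / (b ⬝ᵥ X q))] with μ hμ _
      rw [div_lt_iff₀ hp] at hμ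
      linarith
  obtain ⟨μ, hμ⟩ := h1.exists
  refine FF_iff.2 ⟨g + μ • b, fun q => ?_, fun q => ?_⟩
  · rw [add_dotProduct, smul_dotProduct, smul_eq_mul]
    by_cases hq : q ∈ T
    · rw [(hb.2 q).1 hq]
      have := hg q hq
      linarith
    · exact (hμ q hq).le
  · rw [add_dotProduct, smul_dotProduct, smul_eq_mul]
    by_cases hq : q ∈ T
    · rw [(hb.2 q).1 hq]
      simp [hq]
    · have := hμ q hq
      constructor
      · rintro ⟨h, -⟩
        exact absurd h hq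
      · intro h
        exact absurd h this.ne'

/-- cover relation -/
structure Cov (X : Q → Fin k → ℝ) (T T' : Set Q) : Prop where
  l : T ∈ FF X
  r : T' ∈ FF X
  lt : T ⊂ T'
  cov : ∀ G ∈ FF X, T ⊆ G → G ⊆ T' → G = T ∨ G = T'

lemma exists_cov [Finite Q] {T T' : Set Q} (hT : T ∈ FF X) (hT' : T' ∈ FF X) (h : T ⊂ T') :
    ∃ G, Cov X T G ∧ G ⊆ T' := by
  obtain ⟨G, hG⟩ := (Set.toFinite {G : Set Q | G ∈ FF X ∧ T ⊂ G ∧ G ⊆ T'}).exists_minimal
    ⟨T', hT', h, subset_rfl⟩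
  obtain ⟨h1, h2, h3⟩ := hG.prop
  refine ⟨G, ⟨hT, h1, h2, fun G' hG' h4 h5 => ?_⟩, h3⟩
  by_cases h6 : G' = T
  · exact Or.inl h6
  · right
    apply subset_antisymm h5
    apply hG.2 ⟨hG', (Set.ssubset_iff_subset_ne.2 ⟨h4, fun h => h6 h.symm⟩), h5.trans h3⟩ h5

/-- on a cover, all functionals vanishing below are proportional -/
lemma Cov.ratio [Finite Q] {T T' : Set Q} (hc : Cov X T T') {a : Fin k → ℝ} (ha : Ex X T a)
    {g : Fin k → ℝ} (hg : ∀ q ∈ T, g ⬝ᵥ X q = 0) :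
    ∃ c : ℝ, ∀ q ∈ T', g ⬝ᵥ X q = c * (a ⬝ᵥ X q) := by
  obtain ⟨p, hp1, hp2⟩ := Set.exists_of_ssubset hc.lt
  obtain ⟨q0, hq0, hmin⟩ := Set.exists_min_image (T' \ T)
    (fun q => g ⬝ᵥ X q / (a ⬝ᵥ X q)) (Set.toFinite _) ⟨p, hp1, hp2⟩
  set c := g ⬝ᵥ X q0 / (a ⬝ᵥ X q0) with hc'
  have h1 : ∀ q ∈ T', 0 ≤ (g - c • a) ⬝ᵥ X q := by
    intro q hq
    rw [sub_dotProduct, smul_dotProduct, smul_eq_mul]
    by_cases hqT : q ∈ T
    · rw [hg q hqT, (ha.2 q).1 hqT]; simp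
    · have h2 := hmin q ⟨hq, hqT⟩
      have h3 := ha.pos hqT
      rw [le_div_iff₀ h3] at h2
      linarith
  have h2 := FF_sub hc.r h1
  have h3 : {q | q ∈ T' ∧ (g - c • a) ⬝ᵥ X q = 0} = T' := by
    rcases hc.cov _ h2 (fun q hq => ⟨hc.lt.subset hq, by
      rw [sub_dotProduct, smul_dotProduct, smul_eq_mul, hg q hq, (ha.2 q).1 hq]; simp⟩)
      (fun q hq => hq.1) with h4 | h4
    · exfalso
      apply hq0.2
      rw [← h4]
      refine ⟨hq0.1, ?_⟩
      rw [sub_dotProduct, smul_dotProduct, smul_eq_mul, hc', div_mul_cancel₀ _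
        (ha.pos hq0.2).ne', sub_self]
    · exact h4
  refine ⟨c, fun q hq => ?_⟩
  rw [← h3] at hq
  have h4 := hq.2
  rw [sub_dotProduct, smul_dotProduct, smul_eq_mul] at h4
  linarith

lemma dia_aux [Finite Q] {T0 T1 E G : Set Q} (h01 : Cov X T0 T1) (h1E : Cov X T1 E)
    {a b : Fin k → ℝ} (ha : Ex X T0 a) (hb : Ex X T1 b) (hG : G ∈ FF X) (h1 : T0 ⊂ G)
    (h2 : G ⊂ E) (h3 : G ≠ T1) :
    ∃ ρ : ℝ, (∀ q ∈ E, b ⬝ᵥ X q ≤ ρ * (a ⬝ᵥ X q)) ∧
      ∀ q ∈ E, (q ∈ G ↔ b ⬝ᵥ X q = ρ * (a ⬝ᵥ X q)) := by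
  obtain ⟨g, hg⟩ := FF_iff.1 hG
  have hGT : G ∩ T1 = T0 := by
    rcases h01.cov _ (FF_inter hG h01.r) (Set.subset_inter h1.subset h01.lt.subset)
      Set.inter_subset_right with h4 | h4
    · exact h4
    · exfalso
      have h5 : T1 ⊆ G := by rw [← h4]; exact Set.inter_subset_left
      rcases h1E.cov G hG h5 h2.subset with h6 | h6
      · exact h3 h6
      · exact h2.ne h6
  obtain ⟨γ, hγ⟩ := h01.ratio ha (g := g) (fun q hq => (hg.2 q).1 (h1.subset hq))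
  obtain ⟨c, hc⟩ := h1E.ratio hb (g := g - γ • a) (fun q hq => by
    rw [sub_dotProduct, smul_dotProduct, smul_eq_mul, hγ q hq, sub_self])
  have hc' : ∀ q ∈ E, g ⬝ᵥ X q = γ * (a ⬝ᵥ X q) + c * (b ⬝ᵥ X q) := by
    intro q hq
    have := hc q hq
    rw [sub_dotProduct, smul_dotProduct, smul_eq_mul] at this
    linarith
  have hγ0 : 0 < γ := by
    obtain ⟨q, hq1, hq0⟩ := Set.exists_of_ssubset h01.lt
    have hqG : q ∉ G := by
      intro h
      apply hq0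
      rw [← hGT]
      exact ⟨h, hq1⟩
    have h4 := hγ q hq1
    have h5 := hg.pos hqG
    have h6 := ha.pos hq0
    rw [h4] at h5
    exact (pos_iff_pos_of_mul_pos h5).2 h6
  have hc0 : c < 0 := by
    obtain ⟨q, hq1, hq0⟩ := Set.exists_of_ssubset h1
    have h4 := hc' q (h2.subset hq1)
    rw [(hg.2 q).1 hq1] at h4
    have h5 := mul_pos hγ0 (ha.pos hq0)
    have h6 := hb.1 q
    by_contra hcon
    push Not at hcon
    have := mul_nonneg hcon h6
    linarith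
  refine ⟨γ / (-c), fun q hq => ?_, fun q hq => ?_⟩
  · have h4 := hg.1 q
    rw [hc' q hq] at h4
    rw [div_mul_eq_mul_div, le_div_iff₀ (by linarith)]
    linarith
  · rw [hg.2, hc' q hq, div_mul_eq_mul_div, eq_div_iff (by linarith)]
    constructor
    · intro h; linarith
    · intro h; linarith

/-- the diamond property -/
lemma diamond [Finite Q] {T0 T1 E G G' : Set Q} (h01 : Cov X T0 T1) (h1E : Cov X T1 E)
    (hG : G ∈ FF X) (h1 : T0 ⊂ G) (h2 : G ⊂ E) (h3 : G ≠ T1)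
    (hG' : G' ∈ FF X) (h1' : T0 ⊂ G') (h2' : G' ⊂ E) (h3' : G' ≠ T1) : G = G' := by
  obtain ⟨a, ha⟩ := FF_iff.1 h01.l
  obtain ⟨b, hb⟩ := FF_iff.1 h01.r
  obtain ⟨ρ, hρ1, hρ2⟩ := dia_aux h01 h1E ha hb hG h1 h2 h3
  obtain ⟨ρ', hρ1', hρ2'⟩ := dia_aux h01 h1E ha hb hG' h1' h2' h3'
  have hle : ρ ≤ ρ' := by
    obtain ⟨q, hq1, hq0⟩ := Set.exists_of_ssubset h1
    have h4 := (hρ2 q (h2.subset hq1)).1 hq1
    have h5 := hρ1' q (h2.subset hq1)
    rw [h4] at h5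
    exact le_of_mul_le_mul_right h5 (ha.pos hq0)
  have hle' : ρ' ≤ ρ := by
    obtain ⟨q, hq1, hq0⟩ := Set.exists_of_ssubset h1'
    have h4 := (hρ2' q (h2'.subset hq1)).1 hq1
    have h5 := hρ1 q (h2'.subset hq1)
    rw [h4] at h5
    exact le_of_mul_le_mul_right h5 (ha.pos hq0)
  have hρ : ρ = ρ' := le_antisymm hle hle'
  ext q
  constructor
  · intro hq
    have hqE := h2.subset hq
    rw [hρ2' q hqE, ← hρ, ← hρ2 q hqE]
    exact hq
  · intro hq
    have hqE := h2'.subset hq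
    rw [hρ2 q hqE, hρ, ← hρ2' q hqE]
    exact hq

/-- an adjacent cover nearer to the target -/
lemma exists_adj [Finite Q] {T0 T1 S : Set Q} (h01 : Cov X T0 T1) (h0S : Cov X T0 S)
    (hne : T1 ≠ S) {a s : Fin k → ℝ} (ha : Ex X T0 a) (hs : Ex X S s) :
    ∃ E N, Cov X T1 E ∧ Cov X T0 N ∧ Cov X N E ∧ N ≠ T1 ∧
      ∀ q ∈ N \ T0, ∀ q1 ∈ T1 \ T0, s ⬝ᵥ X q / (a ⬝ᵥ X q) < s ⬝ᵥ X q1 / (a ⬝ᵥ X q1) := by
  obtain ⟨b, hb⟩ := FF_iff.1 h01.r
  have hST : S ∩ T1 = T0 := by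
    rcases h01.cov _ (FF_inter h0S.r h01.r) (Set.subset_inter h0S.lt.subset h01.lt.subset)
      Set.inter_subset_right with h4 | h4
    · exact h4
    · exfalso
      have h5 : T1 ⊆ S := by rw [← h4]; exact Set.inter_subset_left
      rcases h0S.cov T1 h01.r h01.lt.subset h5 with h6 | h6
      · exact h01.lt.ne h6.symm
      · exact hne h6
  obtain ⟨κ, hκ⟩ := h01.ratio ha (g := s) (fun q hq => (hs.2 q).1 (h0S.lt.subset hq))
  obtain ⟨p1, hp1, hp10⟩ := Set.exists_of_ssubset h01.lt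
  obtain ⟨pS, hpS, hpS0⟩ := Set.exists_of_ssubset h0S.lt
  have hκ0 : 0 < κ := by
    have hqS : p1 ∉ S := by
      intro h
      apply hp10
      rw [← hST]
      exact ⟨h, hp1⟩
    have h5 := hs.pos hqS
    rw [hκ p1 hp1] at h5
    exact (pos_iff_pos_of_mul_pos h5).2 (ha.pos hp10)
  -- the functional `h' = κ a - s`
  have hdot : ∀ q, (κ • a - s) ⬝ᵥ X q = κ * (a ⬝ᵥ X q) - s ⬝ᵥ X q := by
    intro q
    rw [sub_dotProduct, smul_dotProduct, smul_eq_mul]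
  have hpS1 : pS ∉ T1 := by
    intro h
    apply hpS0
    rw [← hST]
    exact ⟨hpS, h⟩
  obtain ⟨q0, hq0, hmax⟩ := Set.exists_max_image (T1ᶜ)
    (fun q => (κ * (a ⬝ᵥ X q) - s ⬝ᵥ X q) / (b ⬝ᵥ X q)) (Set.toFinite _) ⟨pS, hpS1⟩
  set μ := (κ * (a ⬝ᵥ X q0) - s ⬝ᵥ X q0) / (b ⬝ᵥ X q0) with hμ
  have hμ0 : 0 < μ := by
    have h1 := hmax pS hpS1
    have h2 : 0 < (κ * (a ⬝ᵥ X pS) - s ⬝ᵥ X pS) / (b ⬝ᵥ X pS) := by
      rw [(hs.2 pS).1 hpS, sub_zero]
      exact div_pos (mul_pos hκ0 (ha.pos hpS0)) (hb.pos hpS1)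
    exact lt_of_lt_of_le h2 h1
  have hMn : ∀ q, 0 ≤ (μ • b - (κ • a - s)) ⬝ᵥ X q := by
    intro q
    rw [sub_dotProduct, smul_dotProduct, smul_eq_mul, hdot]
    by_cases hq : q ∈ T1
    · rw [(hb.2 q).1 hq, hκ q hq]
      linarith
    · have h1 := hmax q hq
      rw [div_le_iff₀ (hb.pos hq)] at h1
      linarith
  let M : Set Q := {q | (μ • b - (κ • a - s)) ⬝ᵥ X q = 0}
  have hM : M ∈ FF X := ⟨_, hMn, rfl⟩
  have hMmem : ∀ q, q ∈ M ↔ μ * (b ⬝ᵥ X q) = κ * (a ⬝ᵥ X q) - s ⬝ᵥ X q := by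
    intro q
    show (μ • b - (κ • a - s)) ⬝ᵥ X q = 0 ↔ _
    rw [sub_dotProduct, smul_dotProduct, smul_eq_mul, hdot, sub_eq_zero]
  have hT1M : T1 ⊂ M := by
    rw [Set.ssubset_iff_of_subset]
    · refine ⟨q0, ?_, hq0⟩
      rw [hMmem, hμ, div_mul_cancel₀ _ (hb.pos hq0).ne']
    · intro q hq
      rw [hMmem, (hb.2 q).1 hq, hκ q hq]
      ring
  obtain ⟨E, hE, hEM⟩ := exists_cov h01.r hM hT1M
  -- the other cover
  obtain ⟨pE, hpE, hpE1⟩ := Set.exists_of_ssubset hE.lt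
  have hpE0 : pE ∉ T0 := fun h => hpE1 (h01.lt.subset h)
  obtain ⟨q1, hq1, hmax1⟩ := Set.exists_max_image (E \ T0)
    (fun q => (b ⬝ᵥ X q) / (a ⬝ᵥ X q)) (Set.toFinite _) ⟨pE, hpE, hpE0⟩
  set ρ := (b ⬝ᵥ X q1) / (a ⬝ᵥ X q1) with hρ
  have hρ0 : 0 < ρ :=
    lt_of_lt_of_le (div_pos (hb.pos hpE1) (ha.pos hpE0)) (hmax1 pE ⟨hpE, hpE0⟩)
  have hNn : ∀ q ∈ E, 0 ≤ (ρ • a - b) ⬝ᵥ X q := by
    intro q hq
    rw [sub_dotProduct, smul_dotProduct, smul_eq_mul]
    by_cases hq0 : q ∈ T0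
    · rw [(ha.2 q).1 hq0, (hb.2 q).1 (h01.lt.subset hq0)]; simp
    · have h1 := hmax1 q ⟨hq, hq0⟩
      rw [div_le_iff₀ (ha.pos hq0)] at h1
      linarith
  let N : Set Q := {q | q ∈ E ∧ (ρ • a - b) ⬝ᵥ X q = 0}
  have hN : N ∈ FF X := FF_sub hE.r hNn
  have hNmem : ∀ q, q ∈ N ↔ q ∈ E ∧ b ⬝ᵥ X q = ρ * (a ⬝ᵥ X q) := by
    intro q
    show q ∈ E ∧ (ρ • a - b) ⬝ᵥ X q = 0 ↔ _
    rw [sub_dotProduct, smul_dotProduct, smul_eq_mul]
    constructor
    · rintro ⟨h1, h2⟩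
      exact ⟨h1, by linarith⟩
    · rintro ⟨h1, h2⟩
      exact ⟨h1, by linarith⟩
  have hT0E : T0 ⊆ E := h01.lt.subset.trans hE.lt.subset
  have hT0N : T0 ⊂ N := by
    rw [Set.ssubset_iff_of_subset]
    · refine ⟨q1, ?_, hq1.2⟩
      rw [hNmem, hρ, div_mul_cancel₀ _ (ha.pos hq1.2).ne']
      exact ⟨hq1.1, rfl⟩
    · intro q hq
      rw [hNmem, (ha.2 q).1 hq, (hb.2 q).1 (h01.lt.subset hq)]
      exact ⟨hT0E hq, by ring⟩
  have hNT1 : ∀ q, q ∈ N → q ∈ T1 → q ∈ T0 := by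
    intro q hq hq1
    by_contra h0
    have h1 := ((hNmem q).1 hq).2
    rw [(hb.2 q).1 hq1] at h1
    have := mul_pos hρ0 (ha.pos h0)
    linarith
  have hp1N : p1 ∉ N := fun h => hp10 (hNT1 p1 h hp1)
  have hNE : N ⊂ E := by
    rw [Set.ssubset_iff_of_subset (fun q hq => hq.1)]
    exact ⟨p1, hE.lt.subset hp1, hp1N⟩
  have hNT : N ≠ T1 := by
    intro h
    exact hp1N (h ▸ hp1)
  refine ⟨E, N, hE, ⟨h01.l, hN, hT0N, ?_⟩, ⟨hN, hE.r, hNE, ?_⟩, hNT, ?_⟩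
  · intro G hG h1 h2
    by_cases h3 : G = T0
    · exact Or.inl h3
    · right
      refine diamond h01 hE hG (Set.ssubset_iff_subset_ne.2 ⟨h1, fun h => h3 h.symm⟩)
        (lt_of_le_of_lt h2 hNE) ?_ hN hT0N hNE hNT
      rintro rfl
      exact hp1N (h2 hp1)
  · intro G hG h1 h2
    by_cases h3 : G = E
    · exact Or.inr h3
    · left
      refine diamond h01 hE hG (lt_of_lt_of_le hT0N h1)
        (Set.ssubset_iff_subset_ne.2 ⟨h2, h3⟩) ?_ hN hT0N hNE hNT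
      rintro rfl
      exact hq1.2 (hNT1 q1 (by
        rw [hNmem, hρ, div_mul_cancel₀ _ (ha.pos hq1.2).ne']
        exact ⟨hq1.1, rfl⟩) (h1 (by
        rw [hNmem, hρ, div_mul_cancel₀ _ (ha.pos hq1.2).ne']
        exact ⟨hq1.1, rfl⟩)))
  · rintro q ⟨hq, hq0⟩ q2 ⟨hq2, hq20⟩
    have h1 := (hNmem q).1 hq
    have h2 := (hMmem q).1 (hEM h1.1)
    have h3 := hκ q2 hq2
    rw [h3, mul_div_cancel_right₀ _ (ha.pos hq20).ne', div_lt_iff₀ (ha.pos hq0)]
    rw [h1.2] at h2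
    have := mul_pos hμ0 (mul_pos hρ0 (ha.pos hq0))
    linarith

/-- automorphisms -/
def IsAut (X : Q → Fin k → ℝ) (π : Equiv.Perm Q) : Prop :=
  ∀ T : Set Q, T ∈ FF X ↔ π '' T ∈ FF X

/-- propagation: if all faces above one cover of a fixed face are fixed, then so are all faces
above the face -/
theorem propagate [Finite Q] {π : Equiv.Perm Q} (hπ : IsAut X π) :
    ∀ (n : ℕ) (T0 T1 : Set Q), (T0ᶜ).ncard = n → Cov X T0 T1 → π '' T0 = T0 →
      (∀ T ∈ FF X, T1 ⊆ T → π '' T = T) → ∀ T ∈ FF X, T0 ⊆ T → π '' T = T := by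
  intro n
  induction n using Nat.strong_induction_on with
  | _ n ih =>
    intro T0 T1 hn h01 hfix hT1
    -- all covers of `T0` are good
    have hall : ∀ S, Cov X T0 S → ∀ T ∈ FF X, S ⊆ T → π '' T = T := by
      intro S h0S
      obtain ⟨a, ha⟩ := FF_iff.1 h01.l
      obtain ⟨s, hs⟩ := FF_iff.1 h0S.r
      let W : Set Q := {q | ∃ T, Cov X T0 T ∧ (∀ G ∈ FF X, T ⊆ G → π '' G = G) ∧ q ∈ T \ T0}
      obtain ⟨p1, hp1, hp10⟩ := Set.exists_of_ssubset h01.lt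
      obtain ⟨w, hw, hmin⟩ := Set.exists_min_image W
        (fun q => s ⬝ᵥ X q / (a ⬝ᵥ X q)) (Set.toFinite _) ⟨p1, T1, h01, hT1, hp1, hp10⟩
      obtain ⟨T2, h02, hgood, hwT⟩ := hw
      by_cases hTS : T2 = S
      · rw [← hTS]; exact hgood
      · exfalso
        obtain ⟨E, N, hE, hN, hNE, hNT, hrat⟩ := exists_adj h02 h0S hTS ha hs
        have hπN : π '' N = N := by
          have hπE : π '' E = E := hgood E hE.r hE.lt.subset
          have hπT2 : π '' T2 = T2 := hgood T2 h02.r subset_rfl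
          refine diamond h02 hE ((hπ N).1 hN.r) ?_ ?_ ?_ hN.r hN.lt hNE.lt hNT
          · rw [← hfix]
            exact π.injective.image_strictMono hN.lt
          · rw [← hπE]
            exact π.injective.image_strictMono hNE.lt
          · rw [← hπT2]
            intro h
            exact hNT (Set.image_injective.2 π.injective h)
        have hcard : (Nᶜ).ncard < n := by
          rw [← hn]
          apply Set.ncard_lt_ncard _ (Set.toFinite _)
          exact compl_lt_compl_iff_lt.2 hN.lt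
        have hPN := ih _ hcard N E rfl hNE hπN (fun T hT hET =>
          hgood T hT (hE.lt.subset.trans hET))
        obtain ⟨q, hq, hq0⟩ := Set.exists_of_ssubset hN.lt
        have h1 := hmin q ⟨N, hN, hPN, hq, hq0⟩
        have h2 := hrat q ⟨hq, hq0⟩ w hwT
        exact absurd h1 (not_le.2 h2)
    intro T hT hTT
    by_cases h : T = T0
    · rw [h, hfix]
    · obtain ⟨S, hS, hST⟩ := exists_cov h01.l hT
        (Set.ssubset_iff_subset_ne.2 ⟨hTT, fun h' => h h'.symm⟩)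
      exact hall S hS T hT hST

/-- rank of a face -/
noncomputable def rk (X : Q → Fin k → ℝ) (T : Set Q) : ℕ :=
  Module.finrank ℝ (Submodule.span ℝ (X '' T))

lemma rk_lt {T T' : Set Q} (hT : T ∈ FF X) (h : T ⊂ T') : rk X T < rk X T' := by
  obtain ⟨a, ha⟩ := FF_iff.1 hT
  obtain ⟨p, hp1, hp0⟩ := Set.exists_of_ssubset h
  apply Submodule.finrank_lt_finrank_of_lt
  rw [SetLike.lt_iff_le_and_exists]
  refine ⟨Submodule.span_mono (Set.image_mono h.subset), X p,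
    Submodule.subset_span ⟨p, hp1, rfl⟩, ?_⟩
  intro hmem
  have h1 : ∀ x ∈ Submodule.span ℝ (X '' T), a ⬝ᵥ x = 0 := by
    intro x hx
    induction hx using Submodule.span_induction with
    | mem x hx =>
      obtain ⟨q, hq, rfl⟩ := hx
      exact (ha.2 q).1 hq
    | zero => simp
    | add x y _ _ hx hy => rw [dotProduct_add, hx, hy, add_zero]
    | smul c x _ hx => rw [dotProduct_smul, hx, smul_zero]
  exact (ha.pos hp0).ne' (h1 _ hmem)

lemma rk_le (T : Set Q) : rk X T ≤ k := by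
  have := Submodule.finrank_le (Submodule.span ℝ (X '' T))
  rwa [Module.finrank_fin_fun] at this

/-- a small set of elements whose pointwise stabiliser fixes all faces above `T` -/
theorem exists_base [Finite Q] : ∀ (n : ℕ) (T : Set Q), (Tᶜ).ncard = n → T ∈ FF X →
    ∃ S : Finset Q, S.card + rk X T ≤ k ∧ ∀ π : Equiv.Perm Q, IsAut X π → π '' T = T →
      (∀ p ∈ S, π p = p) → ∀ G ∈ FF X, T ⊆ G → π '' G = G := by
  classical
  intro n
  induction n using Nat.strong_induction_on with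
  | _ n ih =>
    intro T hn hT
    by_cases huniv : T = Set.univ
    · refine ⟨∅, by simpa using rk_le T, fun π _ h _ G _ hG => ?_⟩
      have : G = T := by
        rw [huniv] at hG ⊢
        exact Set.univ_subset_iff.1 hG
      rw [this, h]
    · obtain ⟨T', hT', -⟩ := exists_cov hT FF_univ
        (Set.ssubset_iff_subset_ne.2 ⟨Set.subset_univ _, huniv⟩)
      obtain ⟨p, hp1, hp0⟩ := Set.exists_of_ssubset hT'.lt
      have hcard : (T'ᶜ).ncard < n := by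
        rw [← hn]
        apply Set.ncard_lt_ncard _ (Set.toFinite _)
        exact compl_lt_compl_iff_lt.2 hT'.lt
      obtain ⟨S, hS1, hS2⟩ := ih _ hcard T' rfl hT'.r
      refine ⟨insert p S, ?_, ?_⟩
      · have h1 := Finset.card_insert_le p S
        have h2 := rk_lt hT hT'.lt
        omega
      · intro π hπ hfix hS
        have hπT' : π '' T' = T' := by
          have h1 : T' ∩ π '' T' = T' := by
            rcases hT'.cov _ (FF_inter hT'.r ((hπ T').1 hT'.r)) (by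
              apply Set.subset_inter hT'.lt.subset
              rw [← hfix]
              exact Set.image_mono hT'.lt.subset) Set.inter_subset_left with h2 | h2
            · exfalso
              apply hp0
              rw [← h2]
              exact ⟨hp1, p, hp1, hS p (Finset.mem_insert_self _ _)⟩
            · exact h2
          have h3 : T' ⊆ π '' T' := by
            intro q hq
            rw [← h1] at hq
            exact hq.2
          refine (Set.eq_of_subset_of_ncard_le h3 ?_ (Set.toFinite _)).symm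
          rw [Set.ncard_image_of_injective _ π.injective]
        exact propagate hπ _ T T' rfl hT' hfix
          (hS2 π hπ hπT' fun q hq => hS q (Finset.mem_insert_of_mem hq))

end Pool.Agent.H4.Aut
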